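import Pool.Agent.H73.SMD.Stmts

set_option autoImplicit false

open Set Filter Topology MeasureTheory Metric

namespace Pool.SMD

open Pool.PHS Pool.LPC

/-- The straightened map has rank one. -/
theorem fin_chart (φ : ℂ → ℂ) (G : ℂ × ℂ → Cn 2) (δ R : ℝ) (hφ : Aux φ)
    (hG : DifferentiableOn ℂ G (BD δ)) (hR : RankOne G (BD δ)) (hB : IsOpen (BD δ))
    (hR1 : R ≤ 1 + 1 / 100)
    (hm : ∀ u ∈ ball (0 : ℂ) R, ∀ w ∈ ball (0 : ℂ) R, (u, gr φ u + w) ∈ BD δ) :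
    DifferentiableOn ℂ (fun p : ℂ × ℂ => G (p.1, gr φ p.1 + p.2)) (ball 0 R ×ˢ ball 0 R) ∧
    RankOne (fun p : ℂ × ℂ => G (p.1, gr φ p.1 + p.2)) (ball 0 R ×ˢ ball 0 R) := by
  have key : ∀ p ∈ (ball 0 R ×ˢ ball 0 R : Set (ℂ × ℂ)), ∃ g' : ℂ,
      HasFDerivAt (fun p : ℂ × ℂ => G (p.1, gr φ p.1 + p.2))
        ((fderiv ℂ G (p.1, gr φ p.1 + p.2)).comp
          ((ContinuousLinearMap.fst ℂ ℂ ℂ).prod
            (g' • ContinuousLinearMap.fst ℂ ℂ ℂ + ContinuousLinearMap.snd ℂ ℂ ℂ))) p := by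
    rintro p ⟨hp1, hp2⟩
    have hφd : DifferentiableAt ℂ φ p.1 :=
      hφ.hol.differentiableAt (isOpen_ball.mem_nhds (ball_subset_ball hR1 hp1))
    have hgd : DifferentiableAt ℂ (gr φ) p.1 := by
      unfold gr
      exact (differentiableAt_const _).add (hφd.div_const _)
    refine ⟨deriv (gr φ) p.1, ?_⟩
    have h1 : HasFDerivAt (fun q : ℂ × ℂ => gr φ q.1)
        (deriv (gr φ) p.1 • ContinuousLinearMap.fst ℂ ℂ ℂ) p :=
      hgd.hasDerivAt.comp_hasFDerivAt p hasFDerivAt_fst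
    have h2 : HasFDerivAt (fun q : ℂ × ℂ => gr φ q.1 + q.2)
        (deriv (gr φ) p.1 • ContinuousLinearMap.fst ℂ ℂ ℂ + ContinuousLinearMap.snd ℂ ℂ ℂ) p :=
      h1.add hasFDerivAt_snd
    have h3 : HasFDerivAt (fun q : ℂ × ℂ => (q.1, gr φ q.1 + q.2))
        ((ContinuousLinearMap.fst ℂ ℂ ℂ).prod
          (deriv (gr φ) p.1 • ContinuousLinearMap.fst ℂ ℂ ℂ +
            ContinuousLinearMap.snd ℂ ℂ ℂ)) p :=
      hasFDerivAt_fst.prodMk h2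
    have h4 : HasFDerivAt G (fderiv ℂ G (p.1, gr φ p.1 + p.2)) (p.1, gr φ p.1 + p.2) :=
      (hG.differentiableAt (hB.mem_nhds (hm _ hp1 _ hp2))).hasFDerivAt
    exact HasFDerivAt.comp p h4 h3
  refine ⟨?_, ?_⟩
  · intro p hp
    obtain ⟨g', hg⟩ := key p hp
    exact hg.differentiableAt.differentiableWithinAt
  · intro p hp i l
    obtain ⟨g', hg⟩ := key p hp
    have e1 : pz (fun p : ℂ × ℂ => G (p.1, gr φ p.1 + p.2)) p =
        pz G (p.1, gr φ p.1 + p.2) + g' • pw G (p.1, gr φ p.1 + p.2) := by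
      unfold pz pw
      rw [hg.fderiv, ← map_smul, ← map_add]
      simp
    have e2 : pw (fun p : ℂ × ℂ => G (p.1, gr φ p.1 + p.2)) p =
        pw G (p.1, gr φ p.1 + p.2) := by
      unfold pw
      rw [hg.fderiv]
      simp
    have h := hR _ (hm _ hp.1 _ hp.2) i l
    rw [e1, e2]
    simp only [Pi.add_apply, Pi.smul_apply, smul_eq_mul]
    linear_combination h

theorem fin_lip (E : ℂ × ℂ → Cn 2) (R : ℝ) (hR : 0 < R)
    (hE : DifferentiableOn ℂ E (ball 0 R ×ˢ ball 0 R)) :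
    ∃ Λ > 0, ∀ u w : ℂ, ‖u‖ < R / 2 → ‖w‖ < R / 2 → ‖E (u, w) - E (u, 0)‖ ≤ Λ * ‖w‖ := by
  have hsub : (closedBall 0 (R / 2) ×ˢ closedBall 0 (R / 2) : Set (ℂ × ℂ)) ⊆
      ball 0 R ×ˢ ball 0 R :=
    prod_mono (closedBall_subset_ball (by linarith)) (closedBall_subset_ball (by linarith))
  have hK : IsCompact (closedBall 0 (R / 2) ×ˢ closedBall 0 (R / 2) : Set (ℂ × ℂ)) :=
    (isCompact_closedBall _ _).prod (isCompact_closedBall _ _)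
  obtain ⟨M, hM⟩ := hK.exists_bound_of_continuousOn (hE.continuousOn.mono hsub)
  have h0 : (0 : ℂ) ∈ closedBall (0 : ℂ) (R / 2) := mem_closedBall_self (by linarith)
  have hM0 : 0 ≤ M := (norm_nonneg _).trans (hM (0, 0) ⟨h0, h0⟩)
  refine ⟨(2 * M) / (R / 2) + 1, by positivity, ?_⟩
  intro u w hu hw
  have huc : u ∈ closedBall (0 : ℂ) (R / 2) := mem_closedBall_zero_iff.2 hu.le
  have hfd : DifferentiableOn ℂ (fun w : ℂ => E (u, w)) (ball 0 (R / 2)) := by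
    have hpd : DifferentiableOn ℂ (fun w : ℂ => (u, w)) (ball 0 (R / 2)) :=
      (differentiableOn_const _).prodMk differentiableOn_id
    exact hE.comp hpd (fun w hw => hsub ⟨huc, ball_subset_closedBall hw⟩)
  have hmaps : MapsTo (fun w : ℂ => E (u, w)) (ball 0 (R / 2))
      (closedBall ((fun w : ℂ => E (u, w)) 0) (2 * M)) := by
    intro v hv
    rw [mem_closedBall, dist_eq_norm]
    have e1 := hM (u, v) ⟨huc, ball_subset_closedBall hv⟩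
    have e2 := hM (u, 0) ⟨huc, h0⟩
    have e3 := norm_sub_le (E (u, v)) (E (u, 0))
    show ‖E (u, v) - E (u, 0)‖ ≤ 2 * M
    linarith
  have h := Complex.dist_le_div_mul_dist_of_mapsTo_ball hfd hmaps
    (show w ∈ ball (0 : ℂ) (R / 2) from mem_ball_zero_iff.2 hw)
  rw [dist_eq_norm, dist_zero_right] at h
  have h' : ‖E (u, w) - E (u, 0)‖ ≤ (2 * M) / (R / 2) * ‖w‖ := h
  nlinarith [norm_nonneg w]

theorem fin_small (l : List ℝ) (h : ∀ x ∈ l, 0 < x) : ∃ t > 0, ∀ x ∈ l, t < x := by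
  induction l with
  | nil => exact ⟨1, one_pos, by simp⟩
  | cons a l ih =>
    obtain ⟨t, ht, htl⟩ := ih (fun x hx => h x (List.mem_cons_of_mem _ hx))
    have ha := h a List.mem_cons_self
    refine ⟨min t (a / 2), lt_min ht (by linarith), ?_⟩
    intro x hx
    rcases List.mem_cons.1 hx with rfl | hx
    · exact (min_le_right _ _).trans_lt (by linarith)
    · exact (min_le_left _ _).trans_lt (htl x hx)

theorem FIN_thm (h1 : ORDStmt) (h2 : TANStmt) (h3 : CNEStmt) (h4 : LEVStmt) : FINStmt := by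
  intro r x ν ψ φ ρ ε δ κ G hr hrx hν hφ hψd hψ0 hψr hψs hcase hρ hρ1 hε hδ hδ1 hκ hGd hGR hGg hGb
  have hBO : IsOpen (BD δ) := by
    have h1 : IsOpen {p : ℂ × ℂ | ‖p.1‖ < 1 + δ} := isOpen_lt (by fun_prop) (by fun_prop)
    have h2 : IsOpen {p : ℂ × ℂ | ‖p.2‖ < 1 + δ} := isOpen_lt (by fun_prop) (by fun_prop)
    exact h1.inter h2
  have hnc : ¬ ∀ᶠ u in 𝓝 (0 : ℂ), ψ u = ψ 0 := by
    intro hev
    obtain ⟨s, hs, hsb⟩ := Metric.eventually_nhds_iff_ball.1 hev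
    obtain ⟨t, ht, htl⟩ := fin_small [s, 2] (by simp [hs])
    have ht1 : t < s := htl s (by simp)
    have ht2 : t < 2 := htl 2 (by simp)
    have hn : ‖(t : ℂ)‖ = t := by rw [Complex.norm_real, Real.norm_eq_abs, abs_of_pos ht]
    have h5 := hψs (t : ℂ) (by rw [mem_ball_zero_iff, hn]; exact ht2)
      (by rw [hn, Complex.ofReal_re]; linarith)
    rw [hsb (t : ℂ) (by rw [mem_ball_zero_iff, hn]; exact ht1), hψ0, hrx] at h5
    exact lt_irrefl _ h5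
  obtain ⟨hO1, hO2⟩ := h1 2 ψ hψd
  obtain ⟨m, c, C, κ₁, hm, hc, hC, hκ1, hbd, hcs⟩ : ∃ (m : ℕ) (c C κ₁ : ℝ), 1 ≤ m ∧ 0 < c ∧
      0 < C ∧ 0 < κ₁ ∧
      (∀ u ∈ ball (0 : ℂ) κ₁, c * ‖u‖ ^ m ≤ ‖ψ u - x‖ ∧ ‖ψ u - x‖ ≤ C * ‖u‖ ^ m) ∧
      ((m = 1 ∧ ∀ u ∈ ball (0 : ℂ) κ₁, ∀ v ∈ ball (0 : ℂ) κ₁, c * ‖u - v‖ ≤ ‖ψ u - ψ v‖) ∨
        ∀ u ∈ ball (0 : ℂ) 2, u ≠ 0 → r (ψ u) < 0) := by
    rcases hcase with hd | hp
    · obtain ⟨c, C, κ₁, hc, hC, hκ1, hb⟩ := hO2 hd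
      refine ⟨1, c, C, κ₁, le_rfl, hc, hC, hκ1, ?_, Or.inl ⟨rfl, fun u hu v hv => (hb u hu v hv).1⟩⟩
      intro u hu
      have h5 := hb u hu 0 (mem_ball_self hκ1)
      rw [sub_zero, hψ0] at h5
      rw [pow_one]
      exact h5
    · obtain ⟨m, c, C, κ₁, hm, hc, hC, hκ1, hb⟩ := hO1 hnc
      refine ⟨m, c, C, κ₁, hm, hc, hC, hκ1, ?_, Or.inr hp⟩
      intro u hu
      have h5 := hb u hu
      rw [hψ0] at h5
      exact h5
  have hcont : ∀ᶠ p : ℂ × ℂ in 𝓝 (0, 0), (p.1, gr φ p.1 + p.2) ∈ BD δ := by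
    have h0 : ((0 : ℂ), gr φ 0 + 0) ∈ BD δ := by
      rw [add_zero]
      exact (hGg 0 (mem_ball_self hκ)).1
    have hφc : ContinuousAt φ 0 :=
      (hφ.hol.differentiableAt (isOpen_ball.mem_nhds (mem_ball_self (by norm_num)))).continuousAt
    have hgc : ContinuousAt (gr φ) 0 := by
      unfold gr
      exact continuousAt_const.add (hφc.div_const _)
    have hgc' : ContinuousAt (fun p : ℂ × ℂ => gr φ p.1) (0, 0) :=
      ContinuousAt.comp (x := ((0 : ℂ), (0 : ℂ))) (f := Prod.fst) (g := gr φ) hgc continuousAt_fst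
    have h5 : ContinuousAt (fun p : ℂ × ℂ => (p.1, gr φ p.1 + p.2)) (0, 0) :=
      continuousAt_fst.prodMk (hgc'.add continuousAt_snd)
    exact h5.tendsto.eventually (hBO.mem_nhds h0)
  obtain ⟨R₀, hR0, hR0b⟩ := Metric.eventually_nhds_iff_ball.1 hcont
  obtain ⟨R, hR, hRl⟩ := fin_small [R₀, 1, κ, κ₁] (by simp [hR0, hκ, hκ1])
  have hRR0 : R < R₀ := hRl _ (by simp)
  have hR1 : R < 1 := hRl _ (by simp)
  have hRκ : R < κ := hRl _ (by simp)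
  have hRκ1 : R < κ₁ := hRl _ (by simp)
  have hm' : ∀ u ∈ ball (0 : ℂ) R, ∀ w ∈ ball (0 : ℂ) R, (u, gr φ u + w) ∈ BD δ := by
    intro u hu w hw
    refine hR0b (u, w) ?_
    rw [mem_ball, Prod.dist_eq]
    exact max_lt (lt_trans hu hRR0) (lt_trans hw hRR0)
  obtain ⟨hEd, hER⟩ := fin_chart φ G δ R hφ hGd hGR hBO (by linarith) hm'
  set E : ℂ × ℂ → Cn 2 := fun p => G (p.1, gr φ p.1 + p.2) with hEdef
  have hE0 : ∀ u ∈ ball (0 : ℂ) R, E (u, 0) = ψ ((ρ : ℂ) * u) := by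
    intro u hu
    show G (u, gr φ u + 0) = _
    rw [add_zero]
    exact (hGg u (ball_subset_ball hRκ.le hu)).2
  have hnρ : ∀ u : ℂ, ‖(ρ : ℂ) * u‖ = ρ * ‖u‖ := by
    intro u
    rw [norm_mul, Complex.norm_real, Real.norm_eq_abs, abs_of_pos hρ]
  have hρb : ∀ (s : ℝ) (u : ℂ), u ∈ ball (0 : ℂ) s → (ρ : ℂ) * u ∈ ball (0 : ℂ) s := by
    intro s u hu
    rw [mem_ball_zero_iff] at hu ⊢
    rw [hnρ]
    nlinarith [norm_nonneg u]
  have hLb : ∀ u ∈ ball (0 : ℂ) R, c * ρ ^ m * ‖u‖ ^ m ≤ ‖E (u, 0) - E (0, 0)‖ ∧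
      ‖E (u, 0) - E (0, 0)‖ ≤ C * ρ ^ m * ‖u‖ ^ m := by
    intro u hu
    have e0 : E (0, 0) = x := by rw [hE0 0 (mem_ball_self hR), mul_zero, hψ0]
    rw [e0, hE0 u hu]
    have h5 := hbd ((ρ : ℂ) * u) (hρb _ _ (ball_subset_ball hRκ1.le hu))
    rw [hnρ, mul_pow, ← mul_assoc, ← mul_assoc] at h5
    exact h5
  obtain ⟨κL, L, hκL, hL, hlev⟩ := h4 2 m R (c * ρ ^ m) (C * ρ ^ m) E hm hR (by positivity)
    (by positivity) hEd hER hLb
  obtain ⟨Λ, hΛ, hlip⟩ := fin_lip E R hR hEd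
  obtain ⟨q₀, hq0, hql⟩ := fin_small [κL, c / (20 * Λ)] (by
    intro y hy
    rcases List.mem_cons.1 hy with rfl | hy
    · exact hκL
    · rw [List.mem_singleton.1 hy]
      positivity)
  have hqκ : q₀ < κL := hql _ (by simp)
  have hqc : q₀ < c / (20 * Λ) := hql _ (by simp)
  have hη : 0 < 44 * ε * q₀ := by positivity
  obtain ⟨κη, hκη, htan⟩ := h2 r x ψ m C κ₁ hr hrx hψd hψ0 hψr hm hκ1
    (fun u hu => (hbd u hu).2) (44 * ε * q₀) hη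
  obtain ⟨κc, hκc, -, hcne⟩ := h3 r x ν hr hν 1 one_pos
  obtain ⟨u₀, hu0, hl⟩ := fin_small [1, κc / C, κc / (2 * (44 * ε * q₀)), R / 2 / q₀, R / 2, κL, κη] (by
    intro y hy
    simp only [List.mem_cons, List.not_mem_nil, or_false] at hy
    rcases hy with rfl | rfl | rfl | rfl | rfl | rfl | rfl <;> positivity)
  have hl1 : u₀ < 1 := hl _ (by simp)
  have hl2 : u₀ < κc / C := hl _ (by simp)
  have hl3 : u₀ < κc / (2 * (44 * ε * q₀)) := hl _ (by simp)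
  have hl4 : u₀ < R / 2 / q₀ := hl _ (by simp)
  have hl5 : u₀ < R / 2 := hl _ (by simp)
  have hl6 : u₀ < κL := hl _ (by simp)
  have hl7 : u₀ < κη := hl _ (by simp)
  rw [lt_div_iff₀ hC] at hl2
  rw [lt_div_iff₀ (by positivity)] at hl3
  rw [lt_div_iff₀ hq0] at hl4
  obtain ⟨t, ht⟩ : ∃ t : ℝ, t = ρ * u₀ := ⟨_, rfl⟩
  have ht0 : 0 < t := by rw [ht]; positivity
  have htu : t ≤ u₀ := by rw [ht]; nlinarith
  have htm : t ^ m ≤ u₀ := (pow_le_of_le_one ht0.le (by linarith) (by omega)).trans htu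
  have htm0 : 0 < t ^ m := by positivity
  have hnt : ‖(t : ℂ)‖ = t := by rw [Complex.norm_real, Real.norm_eq_abs, abs_of_pos ht0]
  have htρ : (ρ : ℂ) * (u₀ : ℂ) = (t : ℂ) := by rw [ht]; push_cast; rfl
  have htb : ∀ s : ℝ, u₀ < s → (t : ℂ) ∈ ball (0 : ℂ) s := by
    intro s hs
    rw [mem_ball_zero_iff, hnt]
    linarith
  have hy : ‖ψ (t : ℂ) - x‖ ≤ κc := by
    have h5 := (hbd (t : ℂ) (htb _ (by linarith))).2
    rw [hnt] at h5
    nlinarith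
  have hry : -(44 * ε * q₀ * t ^ m) ≤ r (ψ (t : ℂ)) := by
    have h5 := htan (t : ℂ) (htb _ hl7)
    rwa [hnt] at h5
  have hry0 : r (ψ (t : ℂ)) < 0 := by
    refine hψs (t : ℂ) (htb _ (by linarith)) ?_
    rw [hnt, Complex.ofReal_re]
    linarith
  have hb1 : 2 * (44 * ε * q₀) * t ^ m ≤ κc := by nlinarith
  have hb10 : 0 ≤ 2 * (44 * ε * q₀) * t ^ m := by positivity
  have hb1r : 0 ≤ r (ψ (t : ℂ) + ((2 * (44 * ε * q₀) * t ^ m : ℝ) : ℂ) • ν) := by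
    have h5 := hcne (ψ (t : ℂ)) (2 * (44 * ε * q₀) * t ^ m) hy hb10 hb1
    linarith
  obtain ⟨b, hb, hrb⟩ : ∃ b ∈ Icc (0 : ℝ) (2 * (44 * ε * q₀) * t ^ m),
      r (ψ (t : ℂ) + (b : ℂ) • ν) = 0 := by
    have hc' : Continuous (fun b : ℝ => r (ψ (t : ℂ) + (b : ℂ) • ν)) := by
      refine hr.continuous.comp ?_
      exact continuous_const.add (Complex.continuous_ofReal.smul continuous_const)
    have h5 := intermediate_value_Icc hb10 hc'.continuousOn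
    have h0 : (0 : ℝ) ∈ Icc ((fun b : ℝ => r (ψ (t : ℂ) + (b : ℂ) • ν)) 0)
        ((fun b : ℝ => r (ψ (t : ℂ) + (b : ℂ) • ν)) (2 * (44 * ε * q₀) * t ^ m)) := by
      refine ⟨?_, hb1r⟩
      show r (ψ (t : ℂ) + ((0 : ℝ) : ℂ) • ν) ≤ 0
      rw [Complex.ofReal_zero, zero_smul, add_zero]
      exact hry0.le
    obtain ⟨b, hb, hbe⟩ := h5 h0
    exact ⟨b, hb, hbe⟩
  obtain ⟨ω₀, hω0⟩ : ∃ ω₀ : ℂ, ω₀ = ((-(b / (88 * ε)) : ℝ) : ℂ) := ⟨_, rfl⟩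
  have hω : ‖ω₀‖ ≤ q₀ * t ^ m := by
    rw [hω0, Complex.norm_real, Real.norm_eq_abs, abs_neg,
      abs_of_nonneg (div_nonneg hb.1 (by positivity)), div_le_iff₀ (by positivity)]
    have := hb.2
    nlinarith
  have hωR : ‖ω₀‖ < R / 2 := by nlinarith
  have hnu : ‖(u₀ : ℂ)‖ = u₀ := by rw [Complex.norm_real, Real.norm_eq_abs, abs_of_pos hu0]
  have hu0R : (u₀ : ℂ) ∈ ball (0 : ℂ) R := by
    rw [mem_ball_zero_iff, hnu]
    linarith
  have hω0R : ω₀ ∈ ball (0 : ℂ) R := by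
    rw [mem_ball_zero_iff]
    linarith
  have hP : ((u₀ : ℂ), gr φ u₀ + ω₀) ∈ BD δ := hm' _ hu0R _ hω0R
  have hPhi : Phi ψ φ ν ρ ε ((u₀ : ℂ), gr φ u₀ + ω₀) = ψ (t : ℂ) + (b : ℂ) • ν := by
    unfold Phi gr
    have hεC : (ε : ℂ) ≠ 0 := by exact_mod_cast hε.ne'
    have e2 : (ε : ℂ) * (φ (u₀ : ℂ) - 88 * (1 + (-1 + φ (u₀ : ℂ) / 88 + ω₀))) = (b : ℂ) := by
      rw [hω0]
      push_cast
      field_simp
      ring
    show ψ ((ρ : ℂ) * (u₀ : ℂ)) + ((ε : ℂ) * (φ (u₀ : ℂ) -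
      88 * (1 + (-1 + φ (u₀ : ℂ) / 88 + ω₀)))) • ν = _
    rw [htρ, e2]
  have hrG : r (E ((u₀ : ℂ), ω₀)) = 0 := by
    refine hGb _ hP ?_
    rw [hPhi]
    exact hrb
  obtain ⟨u', hu'1, hu'R, hu'E⟩ := hlev u₀ (u₀ : ℂ) ω₀ hu0 hl6 hnu.le (by
    refine hω.trans ?_
    have h5 : t ^ m ≤ u₀ ^ m := pow_le_pow_left₀ ht0.le htu m
    have h6 : 0 ≤ u₀ ^ m := by positivity
    nlinarith)
  have hu'ball : u' ∈ ball (0 : ℂ) R := mem_ball_zero_iff.2 hu'R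
  rw [hE0 u' hu'ball] at hu'E
  have hr' : r (ψ ((ρ : ℂ) * u')) = 0 := by
    rw [hu'E]
    exact hrG
  have hdist : ‖ψ ((ρ : ℂ) * u') - ψ (t : ℂ)‖ ≤ Λ * (q₀ * t ^ m) := by
    rw [hu'E]
    have h5 := hlip (u₀ : ℂ) ω₀ (by rw [hnu]; exact hl5) hωR
    rw [hE0 _ hu0R, htρ] at h5
    exact h5.trans (mul_le_mul_of_nonneg_left hω hΛ.le)
  have hΛq : Λ * q₀ ≤ c / 20 := by
    rw [lt_div_iff₀ (by positivity)] at hqc
    linarith
  have hdist' : ‖ψ ((ρ : ℂ) * u') - ψ (t : ℂ)‖ ≤ c / 20 * t ^ m := by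
    refine hdist.trans ?_
    rw [← mul_assoc]
    exact mul_le_mul_of_nonneg_right hΛq htm0.le
  have hρ2 : (ρ : ℂ) * u' ∈ ball (0 : ℂ) 2 := hρb _ _ (ball_subset_ball (by linarith) hu'ball)
  rcases hcs with ⟨hm1, hlow⟩ | hneg
  · rw [hm1, pow_one] at hdist'
    have h7 := hlow ((ρ : ℂ) * u') (hρb _ _ (ball_subset_ball hRκ1.le hu'ball)) (t : ℂ)
      (htb _ (by linarith))
    have h8 : ‖(ρ : ℂ) * u' - (t : ℂ)‖ ≤ t / 20 := by
      have h9 : c * ‖(ρ : ℂ) * u' - (t : ℂ)‖ ≤ c * (t / 20) := by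
        refine (h7.trans hdist').trans (le_of_eq ?_)
        ring
      exact le_of_mul_le_mul_left h9 hc
    have h9 := (Complex.abs_re_le_norm ((ρ : ℂ) * u' - (t : ℂ))).trans h8
    rw [Complex.sub_re, Complex.ofReal_re] at h9
    have h10 := (abs_le.1 h9).1
    have h11 : ‖(ρ : ℂ) * u'‖ ≤ t / 20 + t := by
      have h12 := norm_add_le ((ρ : ℂ) * u' - (t : ℂ)) (t : ℂ)
      rw [sub_add_cancel, hnt] at h12
      linarith
    have h13 : ‖(ρ : ℂ) * u'‖ < 2 * ((ρ : ℂ) * u').re := by linarith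
    have h14 := hψs _ hρ2 h13
    rw [hr'] at h14
    exact lt_irrefl _ h14
  · by_cases hz : (ρ : ℂ) * u' = 0
    · rw [hz, hψ0, norm_sub_rev] at hdist'
      have h5 := (hbd (t : ℂ) (htb _ (by linarith))).1
      rw [hnt] at h5
      nlinarith
    · have h14 := hneg _ hρ2 hz
      rw [hr'] at h14
      exact lt_irrefl _ h14

end Pool.SMD
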