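import Pool.Agent.H73.SMD.Stmts

set_option autoImplicit false

open Set Filter Topology MeasureTheory Metric

namespace Pool.SMD

open Pool.PHS Pool.LPC

theorem sel_punct (κ : ℝ) (hκ : 0 < κ) : IsPreconnected {v : ℂ | v ≠ 0 ∧ ‖v‖ < κ} := by
  have h : {v : ℂ | v ≠ 0 ∧ ‖v‖ < κ} = Complex.exp '' {z : ℂ | z.re < Real.log κ} := by
    ext v
    constructor
    · rintro ⟨h0, h1⟩
      refine ⟨Complex.log v, ?_, Complex.exp_log h0⟩
      show (Complex.log v).re < Real.log κ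
      rw [Complex.log_re]
      exact Real.log_lt_log (norm_pos_iff.2 h0) h1
    · rintro ⟨z, hz, rfl⟩
      refine ⟨Complex.exp_ne_zero z, ?_⟩
      rw [Complex.norm_exp]
      calc Real.exp z.re < Real.exp (Real.log κ) := Real.exp_lt_exp.2 hz
        _ = κ := Real.exp_log hκ
  rw [h]
  exact (convex_halfSpace_re_lt _).isPreconnected.image _ Complex.continuous_exp.continuousOn

theorem sel_disc (T : Set ℂ) (t' : ℂ) (κ : ℝ) (hT : IsOpen T) (hκ : 0 < κ)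
    (ht' : t' ∈ closure T) (ht'T : t' ∉ T) :
    (∀ t, t ≠ t' → ‖t - t'‖ < κ → t ∈ T) ∨
    ∃ t₃ t₄ : ℂ, t₃ ≠ t' ∧ ‖t₃ - t'‖ < κ ∧ t₃ ∉ T ∧ t₄ ≠ t₃ ∧ ball t₄ ‖t₄ - t₃‖ ⊆ T := by
  by_cases hall : ∀ t, t ≠ t' → ‖t - t'‖ < κ → t ∈ T
  · exact Or.inl hall
  · right
    let S : Set ℂ := {v | t' + v ∈ T}
    have hS : IsOpen S := hT.preimage (f := fun v : ℂ => t' + v) (by fun_prop)
    have hne : ({v : ℂ | v ≠ 0 ∧ ‖v‖ < κ} ∩ S).Nonempty := by
      obtain ⟨t, htT, htd⟩ := Metric.mem_closure_iff.1 ht' κ hκ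
      refine ⟨t - t', ⟨?_, ?_⟩, ?_⟩
      · intro h0
        have : t = t' := sub_eq_zero.1 h0
        exact ht'T (this ▸ htT)
      · rw [← dist_eq_norm, dist_comm]
        exact htd
      · show t' + (t - t') ∈ T
        rwa [add_sub_cancel]
    obtain ⟨v₅, ⟨h50, h5κ⟩, h5c, h5n⟩ : ∃ v₅ ∈ {v : ℂ | v ≠ 0 ∧ ‖v‖ < κ}, v₅ ∈ closure S ∧ v₅ ∉ S := by
      by_contra hcon
      push Not at hcon
      have hsub := (sel_punct κ hκ).subset_of_closure_inter_subset hS hne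
        (fun v hv => hcon v hv.2 hv.1)
      apply hall
      intro t h1 h2
      have h3 := hsub (show t - t' ∈ {v : ℂ | v ≠ 0 ∧ ‖v‖ < κ} from ⟨sub_ne_zero.2 h1, h2⟩)
      have h4 : t' + (t - t') ∈ T := h3
      rwa [add_sub_cancel] at h4
    have hv5 : 0 < ‖v₅‖ := norm_pos_iff.2 h50
    have hd : 0 < min ‖v₅‖ (κ - ‖v₅‖) / 4 := by
      have : 0 < min ‖v₅‖ (κ - ‖v₅‖) := lt_min hv5 (by linarith)
      linarith
    obtain ⟨v₄, h4S, h4d⟩ := Metric.mem_closure_iff.1 h5c _ hd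
    have hm1 : min ‖v₅‖ (κ - ‖v₅‖) ≤ ‖v₅‖ := min_le_left _ _
    have hm2 : min ‖v₅‖ (κ - ‖v₅‖) ≤ κ - ‖v₅‖ := min_le_right _ _
    obtain ⟨t₃, h3, h3d⟩ := hT.isClosed_compl.exists_infDist_eq_dist ⟨t', ht'T⟩ (t' + v₄)
    have hle : dist (t' + v₄) t₃ ≤ dist (t' + v₄) (t' + v₅) := by
      rw [← h3d]
      exact infDist_le_dist_of_mem h5n
    have h45 : dist (t' + v₄) (t' + v₅) < min ‖v₅‖ (κ - ‖v₅‖) / 4 := by
      rw [dist_add_left, dist_comm]
      exact h4d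
    have h35 : dist t₃ (t' + v₅) < min ‖v₅‖ (κ - ‖v₅‖) / 2 := by
      have := dist_triangle_left t₃ (t' + v₅) (t' + v₄)
      linarith
    have h3' : ‖(t₃ - t') - v₅‖ < min ‖v₅‖ (κ - ‖v₅‖) / 2 := by
      rw [dist_eq_norm] at h35
      have e : (t₃ - t') - v₅ = t₃ - (t' + v₅) := by ring
      rw [e]
      exact h35
    refine ⟨t₃, t' + v₄, ?_, ?_, h3, ?_, ?_⟩
    · intro he
      rw [he, sub_self, zero_sub, norm_neg] at h3'
      linarith
    · have h6 : ‖t₃ - t'‖ ≤ ‖(t₃ - t') - v₅‖ + ‖v₅‖ := by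
        have := norm_add_le ((t₃ - t') - v₅) v₅
        rwa [sub_add_cancel] at this
      linarith
    · intro he
      exact h3 (he ▸ h4S)
    · intro y hy
      by_contra hyT
      have h7 : infDist (t' + v₄) Tᶜ ≤ dist (t' + v₄) y := infDist_le_dist_of_mem hyT
      rw [h3d, dist_eq_norm] at h7
      rw [mem_ball, dist_comm] at hy
      linarith

theorem sel_ineq (lam : ℝ) (u : ℂ) (h0 : 0 < lam) (h1 : lam ≤ 1 / 2) (h2 : ‖u‖ < 2)
    (h3 : ‖u‖ < 2 * u.re) : ‖(lam : ℂ) * u - 1‖ < 1 := by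
  have hsq : ‖(lam : ℂ) * u - 1‖ ^ 2 = lam ^ 2 * ‖u‖ ^ 2 - 2 * lam * u.re + 1 := by
    rw [Complex.sq_norm, Complex.sq_norm, Complex.normSq_apply, Complex.normSq_apply]
    simp
    ring
  have hu0 := norm_nonneg u
  have h4 : lam * ‖u‖ ^ 2 ≤ ‖u‖ := by
    have h5 : lam * ‖u‖ ≤ 1 := by nlinarith
    nlinarith
  have h6 : ‖(lam : ℂ) * u - 1‖ ^ 2 < 1 := by
    rw [hsq]
    have h7 : lam * (lam * ‖u‖ ^ 2) ≤ lam * ‖u‖ := mul_le_mul_of_nonneg_left h4 h0.le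
    have h8 : lam * ‖u‖ < lam * (2 * u.re) := mul_lt_mul_of_pos_left h3 h0
    nlinarith
  have h9 := norm_nonneg ((lam : ℂ) * u - 1)
  nlinarith

theorem SEL_thm : SELStmt := by
  intro D C₀ h hDo hDc hhd hhm hCo hCne hCD hCne' hC1 hC2
  obtain ⟨z₀, hz0D, hz0c, hz0n⟩ : ∃ z₀ ∈ D, z₀ ∈ closure C₀ ∧ z₀ ∉ C₀ := by
    by_contra hcon
    push Not at hcon
    have hne : (D ∩ C₀).Nonempty := by
      obtain ⟨y, hy⟩ := hCne
      exact ⟨y, hCD hy, hy⟩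
    have hsub := hDc.isPreconnected.subset_of_closure_inter_subset hCo hne
      (fun y hy => hcon y hy.2 hy.1)
    exact hCne' (Subset.antisymm hCD hsub)
  obtain ⟨τ, hτ, hball⟩ := Metric.isOpen_iff.1 hDo z₀ hz0D
  obtain ⟨z₁, hz1, hz1d⟩ := Metric.mem_closure_iff.1 hz0c (τ / 2) (by linarith)
  let ℓ : ℂ → Cn 2 := fun t => z₀ + t • (z₁ - z₀)
  have hℓd : Differentiable ℂ ℓ := by
    intro t
    exact (differentiableAt_const _).add (differentiableAt_id.smul_const _)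
  have hℓc : Continuous ℓ := hℓd.continuous
  have hℓD : ∀ t ∈ ball (0 : ℂ) 2, ℓ t ∈ D := by
    intro t ht
    apply hball
    rw [mem_ball, dist_eq_norm]
    show ‖z₀ + t • (z₁ - z₀) - z₀‖ < τ
    rw [add_sub_cancel_left, norm_smul]
    have h1 : ‖t‖ < 2 := by simpa using ht
    have h2 : ‖z₁ - z₀‖ < τ / 2 := by
      rw [← dist_eq_norm, dist_comm]
      exact hz1d
    nlinarith [norm_nonneg t, norm_nonneg (z₁ - z₀)]
  let ψ₀ : ℂ → Cn 2 := fun t => h (ℓ t)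
  have hψd : DifferentiableOn ℂ ψ₀ (ball 0 2) :=
    hhd.comp hℓd.differentiableOn (fun t ht => hℓD t ht)
  let T : Set ℂ := ball 0 2 ∩ ℓ ⁻¹' C₀
  have hTo : IsOpen T := isOpen_ball.inter (hCo.preimage hℓc)
  have h1T : (1 : ℂ) ∈ T := by
    refine ⟨by simp, ?_⟩
    show z₀ + (1 : ℂ) • (z₁ - z₀) ∈ C₀
    rw [one_smul, add_sub_cancel]
    exact hz1
  have h0T : (0 : ℂ) ∉ T := by
    intro hh
    have h2 : z₀ + (0 : ℂ) • (z₁ - z₀) ∈ C₀ := hh.2
    rw [zero_smul, add_zero] at h2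
    exact hz0n h2
  have hTin : ∀ t ∈ T, ψ₀ t ∈ D ∧ h (ψ₀ t) = ψ₀ t := fun t ht => hC1 _ ht.2
  have hTout : ∀ t ∈ ball (0 : ℂ) 2, t ∈ closure T → t ∉ T → ψ₀ t ∉ D := by
    intro t ht htc htn
    refine hC2 (ℓ t) (hℓD t ht) ?_ ?_
    · have h3 : ℓ t ∈ closure (ℓ '' T) := image_closure_subset_closure_image hℓc ⟨t, htc, rfl⟩
      refine closure_mono ?_ h3
      rintro _ ⟨y, hy, rfl⟩
      exact hy.2
    · intro hh
      exact htn ⟨ht, hh⟩
  obtain ⟨t', ht'B, ht'c, ht'n⟩ : ∃ t' ∈ ball (0 : ℂ) 2, t' ∈ closure T ∧ t' ∉ T := by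
    by_contra hcon
    push Not at hcon
    have hsub := (convex_ball (0 : ℂ) 2).isPreconnected.subset_of_closure_inter_subset hTo
      ⟨1, h1T.1, h1T⟩ (fun y hy => hcon y hy.2 hy.1)
    exact h0T (hsub (by simp))
  have hdo : AnalyticAt ℂ (deriv ψ₀) t' :=
    (hψd.deriv isOpen_ball).analyticAt (isOpen_ball.mem_nhds ht'B)
  have hne : ∀ᶠ t in 𝓝[≠] t', deriv ψ₀ t ≠ 0 := by
    rcases hdo.eventually_eq_zero_or_eventually_ne_zero with h0 | h0
    · exfalso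
      obtain ⟨κ, hκ, hκb⟩ := Metric.eventually_nhds_iff_ball.1
        (h0.and (isOpen_ball.mem_nhds ht'B))
      obtain ⟨t, htT, htd⟩ := Metric.mem_closure_iff.1 ht'c κ hκ
      have hconst : ψ₀ t' = ψ₀ t := by
        refine isOpen_ball.is_const_of_deriv_eq_zero (s := ball t' κ)
          (convex_ball t' κ).isPreconnected (hψd.mono fun y hy => (hκb y hy).2)
          (fun y hy => (hκb y hy).1) (mem_ball_self hκ) ?_
        rw [mem_ball, dist_comm]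
        exact htd
      exact hTout t' ht'B ht'c ht'n (hconst ▸ (hTin t htT).1)
    · exact h0
  rw [eventually_nhdsWithin_iff] at hne
  obtain ⟨κ, hκ, hκb⟩ := Metric.eventually_nhds_iff_ball.1
    (hne.and (isOpen_ball.mem_nhds ht'B))
  have hclos : ∀ t ∈ ball (0 : ℂ) 2, ψ₀ t ∈ closure D := fun t ht => hhm (hℓD t ht)
  rcases sel_disc T t' κ hTo hκ ht'c ht'n with hall | ⟨t₃, t₄, h3n, h3κ, h3T, h43, hbT⟩
  · have hin : ∀ u ∈ ball (0 : ℂ) 2, ‖(t' + ((κ / 2 : ℝ) : ℂ) * u) - t'‖ < κ := by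
      intro u hu
      have h1 : ‖u‖ < 2 := by simpa using hu
      rw [add_sub_cancel_left, norm_mul, Complex.norm_real, Real.norm_eq_abs,
        abs_of_pos (by linarith)]
      nlinarith
    have hinB : ∀ u ∈ ball (0 : ℂ) 2, t' + ((κ / 2 : ℝ) : ℂ) * u ∈ ball (0 : ℂ) 2 := fun u hu =>
      (hκb _ (by rw [mem_ball, dist_eq_norm]; exact hin u hu)).2
    have hinT : ∀ u ∈ ball (0 : ℂ) 2, u ≠ 0 → t' + ((κ / 2 : ℝ) : ℂ) * u ∈ T := by
      intro u hu hu0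
      refine hall _ ?_ (hin u hu)
      intro he
      have h2 : ((κ / 2 : ℝ) : ℂ) * u = 0 := by
        have := congrArg (fun y => y - t') he
        simpa using this
      rcases mul_eq_zero.1 h2 with h3 | h3
      · have : κ / 2 = 0 := by exact_mod_cast h3
        linarith
      · exact hu0 h3
    refine ⟨fun u => ψ₀ (t' + ((κ / 2 : ℝ) : ℂ) * u), ?_, ?_, ?_, ?_, Or.inr ?_⟩
    · refine DifferentiableOn.comp (g := ψ₀)
        (f := fun u : ℂ => t' + ((κ / 2 : ℝ) : ℂ) * u) (t := ball 0 2) hψd ?_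
        (fun u hu => hinB u hu)
      fun_prop
    · intro u hu
      exact hclos _ (hinB u hu)
    · show ψ₀ (t' + ((κ / 2 : ℝ) : ℂ) * 0) ∉ D
      rw [mul_zero, add_zero]
      exact hTout t' ht'B ht'c ht'n
    · intro u hu hu2
      have hu0 : u ≠ 0 := by
        rintro rfl
        simp at hu2
      exact hTin _ (hinT u hu hu0)
    · intro u hu hu0
      exact (hTin _ (hinT u hu hu0)).1
  · have h3B : t₃ ∈ ball (0 : ℂ) 2 :=
      (hκb _ (by rw [mem_ball, dist_eq_norm]; exact h3κ)).2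
    have h3d : deriv ψ₀ t₃ ≠ 0 :=
      (hκb _ (by rw [mem_ball, dist_eq_norm]; exact h3κ)).1 h3n
    obtain ⟨κ₃, hκ3, hκ3b⟩ := Metric.isOpen_iff.1 isOpen_ball t₃ h3B
    have hR : 0 < ‖t₄ - t₃‖ := norm_pos_iff.2 (sub_ne_zero.2 h43)
    set R := ‖t₄ - t₃‖ with hRdef
    obtain ⟨lam, hl0, hl1, hl2⟩ : ∃ lam : ℝ, 0 < lam ∧ lam ≤ 1 / 2 ∧ 2 * lam * R ≤ κ₃ := by
      refine ⟨min (1 / 2) (κ₃ / (2 * R)), lt_min (by norm_num) (by positivity), min_le_left _ _, ?_⟩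
      have h1 : min (1 / 2) (κ₃ / (2 * R)) ≤ κ₃ / (2 * R) := min_le_right _ _
      calc 2 * min (1 / 2) (κ₃ / (2 * R)) * R ≤ 2 * (κ₃ / (2 * R)) * R := by gcongr
        _ = κ₃ := by field_simp
    have hinB : ∀ u ∈ ball (0 : ℂ) 2, t₃ + ((lam : ℂ) * (t₄ - t₃)) * u ∈ ball (0 : ℂ) 2 := by
      intro u hu
      apply hκ3b
      have h1 : ‖u‖ < 2 := by simpa using hu
      rw [mem_ball, dist_eq_norm, add_sub_cancel_left, norm_mul, norm_mul, Complex.norm_real,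
        Real.norm_eq_abs, abs_of_pos hl0, ← hRdef]
      have h2 : 0 < lam * R := by positivity
      nlinarith
    have h3c : t₃ ∈ closure T := by
      have h1 : t₃ ∈ closure (ball t₄ R) := by
        rw [closure_ball _ hR.ne', mem_closedBall, dist_comm, dist_eq_norm]
      exact closure_mono hbT h1
    have hinT : ∀ u ∈ ball (0 : ℂ) 2, ‖u‖ < 2 * u.re →
        t₃ + ((lam : ℂ) * (t₄ - t₃)) * u ∈ T := by
      intro u hu hu2
      apply hbT
      have h1 : ‖u‖ < 2 := by simpa using hu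
      have h2 := sel_ineq lam u hl0 hl1 h1 hu2
      rw [mem_ball, dist_eq_norm]
      have e : t₃ + ((lam : ℂ) * (t₄ - t₃)) * u - t₄ = (t₄ - t₃) * ((lam : ℂ) * u - 1) := by ring
      rw [e, norm_mul, ← hRdef]
      nlinarith
    refine ⟨fun u => ψ₀ (t₃ + ((lam : ℂ) * (t₄ - t₃)) * u), ?_, ?_, ?_, ?_, Or.inl ?_⟩
    · refine DifferentiableOn.comp (g := ψ₀)
        (f := fun u : ℂ => t₃ + ((lam : ℂ) * (t₄ - t₃)) * u) (t := ball 0 2) hψd ?_
        (fun u hu => hinB u hu)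
      fun_prop
    · intro u hu
      exact hclos _ (hinB u hu)
    · show ψ₀ (t₃ + ((lam : ℂ) * (t₄ - t₃)) * 0) ∉ D
      rw [mul_zero, add_zero]
      exact hTout t₃ h3B h3c h3T
    · intro u hu hu2
      exact hTin _ (hinT u hu hu2)
    · have h1 : HasDerivAt ψ₀ (deriv ψ₀ t₃) (t₃ + ((lam : ℂ) * (t₄ - t₃)) * 0) := by
        rw [mul_zero, add_zero]
        exact (hψd.differentiableAt (isOpen_ball.mem_nhds h3B)).hasDerivAt
      have h2 : HasDerivAt (fun u : ℂ => t₃ + ((lam : ℂ) * (t₄ - t₃)) * u)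
          ((lam : ℂ) * (t₄ - t₃)) 0 := by
        simpa using ((hasDerivAt_id (0 : ℂ)).const_mul ((lam : ℂ) * (t₄ - t₃))).const_add t₃
      have h3 := HasDerivAt.scomp (0 : ℂ) h1 h2
      have h4 : deriv (fun u : ℂ => ψ₀ (t₃ + ((lam : ℂ) * (t₄ - t₃)) * u)) 0 =
          ((lam : ℂ) * (t₄ - t₃)) • deriv ψ₀ t₃ := h3.deriv
      rw [h4]
      refine smul_ne_zero (mul_ne_zero ?_ (sub_ne_zero.2 h43)) h3d
      exact_mod_cast hl0.ne'

end Pool.SMD
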